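import Mathlib

open Filter Topology Set
open scoped ENNReal

namespace Pool.Agent.Results.MP_441f99_an.Sigma

/-- `‖x‖_𝓕`. -/
noncomputable def nrm (𝓕 : Set (Finset ℕ)) (x : ℕ →₀ ℝ) : ℝ≥0∞ := ⨆ F ∈ 𝓕, ∑ i ∈ F, ‖x i‖ₑ

/-- `‖x‖₁`. -/
noncomputable def l1 (x : ℕ →₀ ℝ) : ℝ≥0∞ := ∑ i ∈ x.support, ‖x i‖ₑ

/-- The closure of `𝓕`: sets all of whose finite subsets lie in `𝓕`. -/
def clos (𝓕 : Set (Finset ℕ)) : Set (Set ℕ) := {A | ∀ F : Finset ℕ, ↑F ⊆ A → F ∈ 𝓕}

open Classical in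
/-- `P_A x`. -/
noncomputable def proj (A : Set ℕ) (x : ℕ →₀ ℝ) : ℕ →₀ ℝ := x.filter (· ∈ A)

/-- `𝓕`-supported normalized block basic sequences. -/
def IsBlock (𝓕 : Set (Finset ℕ)) (x : ℕ → ℕ →₀ ℝ) : Prop :=
  (∀ n, ∀ i ∈ (x n).support, ∀ j ∈ (x (n + 1)).support, i < j) ∧ (∀ n, nrm 𝓕 (x n) = 1) ∧
    ∀ n, (x n).support ∈ 𝓕

def NotC0 (𝓕 : Set (Finset ℕ)) : Prop :=
  ∀ x, IsBlock 𝓕 x → ⨆ A ∈ clos 𝓕, ∑' n, nrm 𝓕 (proj A (x n)) = ∞

def PropSigma (𝓕 : Set (Finset ℕ)) : Prop :=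
  ∀ x, IsBlock 𝓕 x → ∃ A ∈ clos 𝓕, ∑' n, l1 (proj A (x n)) = ∞

variable {𝓕 : Set (Finset ℕ)}

lemma nrm_eq {x : ℕ →₀ ℝ} (h : x.support ∈ 𝓕) : nrm 𝓕 x = l1 x := by
  refine le_antisymm (iSup₂_le fun F _ => ?_) (le_iSup₂_of_le x.support h le_rfl)
  rw [← Finset.sum_filter_ne_zero]
  exact Finset.sum_le_sum_of_subset fun i hi => by simpa using (Finset.mem_filter.1 hi).2

lemma supp_mem {A : Set ℕ} (hA : A ∈ clos 𝓕) (x : ℕ →₀ ℝ) : (proj A x).support ∈ 𝓕 :=
  hA _ fun i hi => by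
    classical
    simp only [proj, Finsupp.support_filter, Finset.coe_filter] at hi
    exact hi.2

open Classical in
/-- real valued `‖P_A x‖₁` -/
noncomputable def th (A : Set ℕ) (x : ℕ →₀ ℝ) : ℝ := ∑ i ∈ x.support, if i ∈ A then |x i| else 0

lemma th_nonneg (A : Set ℕ) (x : ℕ →₀ ℝ) : 0 ≤ th A x :=
  Finset.sum_nonneg fun i _ => by split_ifs <;> simp

lemma l1_proj (A : Set ℕ) (x : ℕ →₀ ℝ) : l1 (proj A x) = ENNReal.ofReal (th A x) := by
  classical
  rw [th, ENNReal.ofReal_sum_of_nonneg fun i _ => by split_ifs <;> simp, l1, proj,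
    Finsupp.support_filter, Finset.sum_filter]
  refine Finset.sum_congr rfl fun i _ => ?_
  split_ifs with h <;> simp [h, Real.enorm_eq_ofReal_abs]

lemma th_sup {x : ℕ →₀ ℝ} {G : Finset ℕ} (h : x.support ⊆ G) (A : Set ℕ) :
    th A x = ∑ i ∈ G, A.indicator (fun i => |x i|) i := by
  classical
  rw [th, ← Finset.sum_subset h fun i _ hi => by
    simp [indicator, Finsupp.notMem_support_iff.1 hi]]
  exact Finset.sum_congr rfl fun i _ => by simp [indicator]

lemma th_smul (A : Set ℕ) {c : ℝ} (hc : 0 ≤ c) (x : ℕ →₀ ℝ) : th A (c • x) = c * th A x := by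
  rw [th_sup Finsupp.support_smul, th_sup subset_rfl, Finset.mul_sum]
  refine Finset.sum_congr rfl fun i _ => ?_
  by_cases h : i ∈ A <;> simp [h, abs_of_nonneg hc]

lemma th_proj (A B : Set ℕ) (x : ℕ →₀ ℝ) : th A (proj B x) = th (A ∩ B) x := by
  classical
  rw [th_sup (G := x.support) (by simp [proj, Finsupp.support_filter]), th_sup subset_rfl]
  refine Finset.sum_congr rfl fun i _ => ?_
  by_cases h : i ∈ A <;> by_cases h' : i ∈ B <;> simp [h, h', proj]

lemma th_mono {A B : Set ℕ} (h : A ⊆ B) (x : ℕ →₀ ℝ) : th A x ≤ th B x :=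
  Finset.sum_le_sum fun i _ => by
    by_cases h1 : i ∈ A
    · simp [h1, h h1]
    · simp only [h1, if_false]
      split_ifs <;> simp

lemma th_sum {s : Finset ℕ} {v : ℕ → ℕ →₀ ℝ} (hv : ∀ m i, 0 ≤ v m i) (A : Set ℕ) :
    th A (∑ m ∈ s, v m) = ∑ m ∈ s, th A (v m) := by
  rw [th_sup Finsupp.support_finsetSum, Finset.sum_congr rfl fun m hm =>
    th_sup (Finset.subset_biUnion_of_mem (fun m => (v m).support) hm) A, Finset.sum_comm]
  refine Finset.sum_congr rfl fun i _ => ?_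
  by_cases h : i ∈ A <;> simp [h, abs_of_nonneg (hv _ _),
    abs_of_nonneg (Finset.sum_nonneg fun m _ => hv m i)]

lemma tails (hc : NotC0 𝓕) {v : ℕ → ℕ →₀ ℝ} (hv : ∀ m i, 0 ≤ v m i)
    (hs : ∀ m n, m < n → ∀ i ∈ (v m).support, ∀ j ∈ (v n).support, i < j)
    (hb : ∀ A ∈ clos 𝓕, ∀ n, ∑ m ∈ Finset.range n, th A (v m) ≤ 1) {η : ℝ} (hη : 0 < η) :
    ∃ p, ∀ A ∈ clos 𝓕, ∀ q, ∑ m ∈ Finset.Ico p q, th A (v m) ≤ η := by
  by_contra h
  push Not at h
  choose B hB q hq using h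
  have hlt : ∀ p, p < q p := fun p => by
    by_contra h
    have := hq p
    rw [Finset.Ico_eq_empty h, Finset.sum_empty] at this
    linarith
  let p : ℕ → ℕ := fun j => q^[j] 0
  have hp : ∀ j, p (j + 1) = q (p j) := fun j => Function.iterate_succ_apply' q j 0
  let u : ℕ → ℕ →₀ ℝ := fun j => ∑ m ∈ Finset.Ico (p j) (p (j + 1)), v m
  let c : ℕ → ℝ := fun j => th (B (p j)) (u j)
  have hcη : ∀ j, η < c j := fun j => by simpa only [c, u, th_sum hv, hp] using hq (p j)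
  let y : ℕ → ℕ →₀ ℝ := fun j => proj (B (p j)) ((c j)⁻¹ • u j)
  have hy : ∀ j, ∀ i ∈ (y j).support, ∃ m ∈ Finset.Ico (p j) (p (j + 1)), i ∈ (v m).support := by
    classical
    intro j i hi
    simp only [y, proj, Finsupp.support_filter, Finset.mem_filter] at hi
    exact Finset.mem_biUnion.1 (Finsupp.support_finsetSum (Finsupp.support_smul hi.1))
  have h1 := hc y ⟨fun n i hi j hj => by
      obtain ⟨m, hm, him⟩ := hy n i hi
      obtain ⟨m', hm', hjm⟩ := hy (n + 1) j hj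
      exact hs m m' ((Finset.mem_Ico.1 hm).2.trans_le (Finset.mem_Ico.1 hm').1) i him j hjm,
    fun n => by
      have := (hη.trans (hcη n))
      rw [nrm_eq (supp_mem (hB _) _), l1_proj, th_smul _ (by positivity),
        inv_mul_cancel₀ this.ne', ENNReal.ofReal_one],
    fun n => supp_mem (hB _) _⟩
  refine absurd h1 (ne_top_of_le_ne_top (b := ENNReal.ofReal η⁻¹) (by simp) ?_)
  refine iSup₂_le fun A hA => ENNReal.tsum_le_of_sum_range_le fun n => ?_
  have h2 : ∀ n, ∑ j ∈ Finset.range n, th A (u j) = ∑ m ∈ Finset.range (p n), th A (v m) := by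
    intro n
    induction n with
    | zero => simp [p]
    | succ n ih =>
      rw [Finset.sum_range_succ, ih, th_sum hv,
        Finset.sum_range_add_sum_Ico _ (hp n ▸ (hlt _).le)]
  calc _ ≤ ∑ j ∈ Finset.range n, ENNReal.ofReal (η⁻¹ * th A (u j)) := by
        refine Finset.sum_le_sum fun j _ => ?_
        have := (hη.trans (hcη j))
        rw [nrm_eq (supp_mem hA _), l1_proj, th_proj, th_smul _ (by positivity)]
        exact ENNReal.ofReal_le_ofReal (mul_le_mul (inv_anti₀ hη (hcη j).le)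
          (th_mono inter_subset_left _) (th_nonneg _ _) (by positivity))
    _ ≤ _ := by
        rw [← ENNReal.ofReal_sum_of_nonneg fun j _ => mul_nonneg (by positivity) (th_nonneg _ _),
          ← Finset.mul_sum, h2]
        exact ENNReal.ofReal_le_ofReal (mul_le_of_le_one_right (by positivity) (hb A hA _))

lemma greedy {ι : Type*} [Nonempty ι] (θ : ι → ℕ → ℝ) (h0 : ∀ A m, 0 ≤ θ A m)
    (h1 : ∀ A m, θ A m ≤ 1) : ∃ a S : ℕ → ℝ, (∀ n, a n = (1 - S n) ^ 2 / 2) ∧ (∀ n, S n < 1) ∧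
      ∀ n, IsLUB (range fun A => ∑ m ∈ Finset.range n, a m * θ A m) (S n) := by
  let st : ℕ → ι → ℝ := fun n => Nat.rec (fun _ => 0)
    (fun n f A => f A + (1 - ⨆ B, f B) ^ 2 / 2 * θ A n) n
  let S : ℕ → ℝ := fun n => ⨆ B, st n B
  have e : ∀ n A, st n A = ∑ m ∈ Finset.range n, (1 - S m) ^ 2 / 2 * θ A m := fun n A => by
    induction n with
    | zero => rfl
    | succ n ih => rw [Finset.sum_range_succ, ← ih]
  have hb : ∀ n, BddAbove (range (st n)) := fun n =>
    ⟨∑ m ∈ Finset.range n, (1 - S m) ^ 2 / 2, by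
      rintro _ ⟨A, rfl⟩
      rw [e]
      exact Finset.sum_le_sum fun m _ => mul_le_of_le_one_right (by positivity) (h1 A m)⟩
  have hn : ∀ n, 0 ≤ S n := fun n => Real.iSup_nonneg fun A => by
    rw [e]
    exact Finset.sum_nonneg fun m _ => mul_nonneg (by positivity) (h0 A m)
  refine ⟨_, S, fun _ => rfl, fun n => ?_, fun n => ?_⟩
  · induction n with
    | zero => simp [S, st]
    | succ n ih =>
      have : S (n + 1) ≤ S n + (1 - S n) ^ 2 / 2 := ciSup_le fun A =>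
        add_le_add (le_ciSup (hb n) A) (mul_le_of_le_one_right (by positivity) (h1 A n))
      nlinarith [hn n]
  · simp only [← e]
    exact isLUB_ciSup (hb n)

theorem result (𝓕 : Set (Finset ℕ)) (hher : ∀ F ∈ 𝓕, ∀ G ⊆ F, G ∈ 𝓕)
    (_hcov : ∀ i, {i} ∈ 𝓕) (hc : NotC0 𝓕) : PropSigma 𝓕 := by
  intro x hx
  by_contra hn
  push Not at hn
  have hsup := hc x hx
  obtain ⟨hs, hnr, hF⟩ := hx
  have hne : ∀ n, (x n).support.Nonempty := fun n => by
    by_contra h
    have := hnr n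
    rw [nrm_eq (hF n), l1, Finset.not_nonempty_iff_eq_empty.1 h] at this
    simp at this
  have hs' : ∀ m n, m < n → ∀ i ∈ (x m).support, ∀ j ∈ (x n).support, i < j := by
    intro m n h
    induction n, h using Nat.le_induction with
    | base => exact hs m
    | succ n _ ih =>
      intro i hi j hj
      obtain ⟨k, hk⟩ := hne n
      exact (ih i hi k hk).trans (hs n k hk j hj)
  have h1 : ∀ A m, th A (x m) ≤ 1 := fun A m => by
    refine (th_mono (subset_univ A) _).trans ?_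
    rw [← ENNReal.ofReal_le_one, ← l1_proj, ← hnr m, nrm_eq (hF m)]
    simp [proj, Finsupp.filter_eq_self_iff _ _ |>.2]
  have : Nonempty (clos 𝓕) := ⟨⟨∅, fun F h => hher _ (hF 0) F fun i hi => (h hi).elim⟩⟩
  obtain ⟨a, S, ha, hS1, hS⟩ := greedy (fun (A : clos 𝓕) m => th A (x m))
    (fun A m => th_nonneg _ _) fun A m => h1 _ _
  have ha0 : ∀ n, 0 < a n := fun n => by rw [ha]; have := sub_pos.2 (hS1 n); positivity
  have hle : ∀ A ∈ clos 𝓕, ∀ n, ∑ m ∈ Finset.range n, a m * th A (x m) ≤ S n :=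
    fun A hA n => (hS n).1 ⟨⟨A, hA⟩, rfl⟩
  have hSm : Monotone S := monotone_nat_of_le_succ fun n => (hS n).2 (by
    rintro _ ⟨A, rfl⟩
    refine le_trans ?_ (hle A A.2 (n + 1))
    rw [Finset.sum_range_succ]
    exact le_add_of_nonneg_right (mul_nonneg (ha0 n).le (th_nonneg _ _)))
  have haa : Antitone a := fun m n h => by
    rw [ha, ha]
    have := hSm h
    have := hS1 n
    nlinarith
  have hlim : ∀ ε > 0, ∃ n, 1 - ε < S n := by
    intro ε hε
    by_contra h
    push Not at h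
    refine absurd hsup (ne_top_of_le_ne_top (b := ENNReal.ofReal (2 / ε ^ 2)) (by simp) ?_)
    refine iSup₂_le fun A hA => ENNReal.tsum_le_of_sum_range_le fun n => ?_
    simp only [nrm_eq (supp_mem hA _), l1_proj]
    rw [← ENNReal.ofReal_sum_of_nonneg fun j _ => th_nonneg _ _]
    refine ENNReal.ofReal_le_ofReal ?_
    have : ε ^ 2 / 2 * ∑ m ∈ Finset.range n, th A (x m) ≤ 1 := by
      rw [Finset.mul_sum]
      refine le_trans (Finset.sum_le_sum fun m _ => mul_le_mul_of_nonneg_right ?_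
        (th_nonneg _ _)) ((hle A hA n).trans (hS1 n).le)
      rw [ha]
      have := h m
      nlinarith
    rw [le_div_iff₀ (by positivity)]
    linarith
  let v : ℕ → ℕ →₀ ℝ := fun m => a m • (x m).mapRange (fun t => |t|) abs_zero
  have hv : ∀ A m, th A (v m) = a m * th A (x m) := fun A m => by
    rw [th_smul _ (ha0 m).le, th_sup Finsupp.support_mapRange, th_sup subset_rfl]
    simp
  have ht := fun η hη => tails (η := η) hc (v := v)
    (fun m i => by simpa [v] using mul_nonneg (ha0 m).le (abs_nonneg _))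
    (fun m n h i hi j hj => hs' m n h i (Finsupp.support_mapRange (Finsupp.support_smul hi)) j
      (Finsupp.support_mapRange (Finsupp.support_smul hj)))
    (fun A hA n => by simpa only [hv] using (hle A hA n).trans (hS1 n).le) hη
  simp only [hv] at ht
  have hA : ∀ k : ℕ, ∃ A ∈ clos 𝓕, ∃ n,
      1 - 1 / ((k : ℝ) + 1) < ∑ m ∈ Finset.range n, a m * th A (x m) := fun k => by
    obtain ⟨n, hn⟩ := hlim (1 / ((k : ℝ) + 1)) (by positivity)
    obtain ⟨_, ⟨A, rfl⟩, h⟩ := (lt_isLUB_iff (hS n)).1 hn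
    exact ⟨A, A.2, n, h⟩
  choose A hA n hAn using hA
  let B : Set ℕ := {i | ∀ᶠ k in hyperfilter ℕ, i ∈ A k}
  have hB : ∀ i, ∀ᶠ k in hyperfilter ℕ, (i ∈ A k ↔ i ∈ B) := fun i => by
    by_cases h : i ∈ B
    · filter_upwards [show ∀ᶠ k in hyperfilter ℕ, i ∈ A k from h] with k hk
      simp [h, hk]
    · filter_upwards [Ultrafilter.eventually_not.2 h] with k hk
      simp [h, hk]
  have hBc : B ∈ clos 𝓕 := fun F hF => by
    obtain ⟨k, hk⟩ := ((F.eventually_all).2 fun i _ => hB i).exists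
    exact hA k F fun i hi => (hk i hi).2 (hF hi)
  have hth : ∀ m, ∀ᶠ k in hyperfilter ℕ, th (A k) (x m) = th B (x m) := fun m => by
    filter_upwards [((x m).support.eventually_all).2 fun i _ => hB i] with k hk
    exact Finset.sum_congr rfl fun i hi => by rw [propext (hk i hi)]
  have hφ : ∃ φ > 0, ∀ p, ∑ m ∈ Finset.range p, th B (x m) ≤ φ := by
    refine ⟨(∑' n, l1 (proj B (x n))).toReal + 1, by positivity, fun p => ?_⟩
    refine le_trans ?_ (le_add_of_nonneg_right zero_le_one)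
    rw [← ENNReal.ofReal_le_iff_le_toReal (hn B hBc),
      ENNReal.ofReal_sum_of_nonneg fun j _ => th_nonneg _ _]
    simp only [← l1_proj]
    exact ENNReal.sum_le_tsum _
  obtain ⟨φ, hφ0, hφ⟩ := hφ
  obtain ⟨q, hq⟩ := hlim (1 / φ) (by positivity)
  set d := 1 - S q with hd
  have hd0 : 0 < d := sub_pos.2 (hS1 q)
  obtain ⟨p, hp⟩ := ht (d / 8) (by positivity)
  have hk : ∀ᶠ k : ℕ in hyperfilter ℕ, 1 / ((k : ℝ) + 1) < d / 8 :=
    (tendsto_one_div_add_atTop_nhds_zero_nat.mono_left Nat.hyperfilter_le_atTop).eventually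
      (gt_mem_nhds (by positivity))
  obtain ⟨k, hk1, hk2⟩ := (hk.and (((Finset.range p).eventually_all).2 fun m _ => hth m)).exists
  have hnn : ∀ A m, 0 ≤ a m * th A (x m) := fun A m => mul_nonneg (ha0 m).le (th_nonneg _ _)
  have split : ∀ (A : Set ℕ) n p, ∑ m ∈ Finset.range n, a m * th A (x m) ≤
      ∑ m ∈ Finset.range p, a m * th A (x m) + ∑ m ∈ Finset.Ico p n, a m * th A (x m) := by
    intro A n p
    rcases le_total p n with h | h
    · rw [Finset.sum_range_add_sum_Ico _ h]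
    · exact le_add_of_le_of_nonneg (Finset.sum_le_sum_of_subset_of_nonneg
        (Finset.range_mono h) fun m _ _ => hnn A m) (Finset.sum_nonneg fun m _ => hnn A m)
  have e1 := (hAn k).trans_le (split (A k) (n k) p)
  have e2 := hp (A k) (hA k) (n k)
  have e3 : ∑ m ∈ Finset.range p, a m * th (A k) (x m) = ∑ m ∈ Finset.range p, a m * th B (x m) :=
    Finset.sum_congr rfl fun m hm => by rw [hk2 m hm]
  have e4 := split B p q
  have e5 := hle B hBc q
  have e6 : ∑ m ∈ Finset.Ico q p, a m * th B (x m) ≤ a q * φ := by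
    refine le_trans (Finset.sum_le_sum fun m hm => mul_le_mul_of_nonneg_right
      (haa (Finset.mem_Ico.1 hm).1) (th_nonneg _ _)) ?_
    rw [← Finset.mul_sum]
    refine mul_le_mul_of_nonneg_left (le_trans (Finset.sum_le_sum_of_subset_of_nonneg
      (fun m hm => Finset.mem_range.2 (Finset.mem_Ico.1 hm).2) fun m _ _ => th_nonneg _ _) (hφ p))
      (ha0 q).le
  have e7 : d * φ < 1 := by
    rw [← lt_div_iff₀ hφ0]
    linarith
  rw [ha, ← hd] at e6
  nlinarith

end Pool.Agent.Results.MP_441f99_an.Sigma
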